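import Mathlib

/-!
# Finitely supported probability measures on the naturals: definitions
-/

set_option autoImplicit false

open MeasureTheory

namespace Q290.WSP

/-- The probability measures on `ℕ` with finite support. -/
def FinProb : Type :=
  {μ : Measure ℕ // IsProbabilityMeasure μ ∧ {s : ℕ | μ {s} ≠ 0}.Finite}

instance (μ : FinProb) : IsProbabilityMeasure μ.1 := μ.2.1

/-- The support of `μ`: the points of positive mass. -/
def supp (μ : FinProb) : Set ℕ := {s : ℕ | μ.1 {s} ≠ 0}

/-- The mass `μ(s)` as a real number. -/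
noncomputable def mass (μ : FinProb) (s : ℕ) : ℝ := (μ.1 {s}).toReal

theorem conv_singleton (μ ν : Measure ℕ) [IsProbabilityMeasure μ] [IsProbabilityMeasure ν]
    (n : ℕ) : (μ.conv ν) {n} = ∑ p ∈ Finset.HasAntidiagonal.antidiagonal n, μ {p.1} * ν {p.2} := by
  rw [Measure.conv, Measure.map_apply (by fun_prop) (measurableSet_singleton n)]
  have h : (fun x : ℕ × ℕ => x.1 + x.2) ⁻¹' {n} = (Finset.HasAntidiagonal.antidiagonal n : Set (ℕ × ℕ)) := by
    ext x
    simp
  rw [h, ← sum_measure_singleton]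
  refine Finset.sum_congr rfl fun p _ => ?_
  rw [← Measure.prod_prod, Set.singleton_prod_singleton]

theorem finite_conv (μ ν : FinProb) : {s : ℕ | (μ.1.conv ν.1) {s} ≠ 0}.Finite := by
  refine Set.Finite.subset ((μ.2.2.prod ν.2.2).image (fun x : ℕ × ℕ => x.1 + x.2)) ?_
  intro s hs
  rw [Set.mem_ofPred_eq, conv_singleton] at hs
  obtain ⟨p, hp, h⟩ := Finset.exists_ne_zero_of_sum_ne_zero hs
  exact ⟨p, ⟨left_ne_zero_of_mul h, right_ne_zero_of_mul h⟩, Finset.HasAntidiagonal.mem_antidiagonal.mp hp⟩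

/-- The convolution of two finitely supported probability measures. -/
noncomputable def conv (μ ν : FinProb) : FinProb :=
  ⟨μ.1.conv ν.1, inferInstance, finite_conv μ ν⟩

/-- The map `Ψ` is an endomorphism of the convolution semigroup. -/
def IsEndomorphism (Ψ : FinProb → FinProb) : Prop :=
  ∀ μ ν : FinProb, Ψ (conv μ ν) = conv (Ψ μ) (Ψ ν)

/-- The map `Ψ` is weakly support-preserving: `Ψ[μ]` is absolutely continuous with respect to
`μ`. -/
def IsWeaklySupportPreserving (Ψ : FinProb → FinProb) : Prop :=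
  ∀ μ : FinProb, (Ψ μ).1 ≪ μ.1

/-- `Ψ` is the tilting map `Φ_β`. -/
def IsTilting (β : ℝ) (Ψ : FinProb → FinProb) : Prop :=
  ∀ (μ : FinProb) (s : ℕ), mass (Ψ μ) s =
    mass μ s * Real.exp (-β * s) / ∑' t : ℕ, mass μ t * Real.exp (-β * t)

/-- `Ψ` is the map `Φ_max` which sends `μ` to the point mass at the largest point of its
support. -/
def IsMaxMap (Ψ : FinProb → FinProb) : Prop :=
  ∀ μ : FinProb, (Ψ μ).1 = Measure.dirac (sSup (supp μ))

/-- `Ψ` is the map `Φ_min` which sends `μ` to the point mass at the smallest point of its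
support. -/
def IsMinMap (Ψ : FinProb → FinProb) : Prop :=
  ∀ μ : FinProb, (Ψ μ).1 = Measure.dirac (sInf (supp μ))

end Q290.WSP
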