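import Pool.Agent.Q290.WSP.Main

/-!
# Infinitely many exotic endomorphisms
-/

set_option autoImplicit false

open MeasureTheory

namespace Q290.WSP

/-- For each prime `p` there is a valuation ring of the real numbers in which `p` is not
invertible. -/
theorem exists_valuationSubring (p : ℕ) (hp : p.Prime) :
    ∃ B : ValuationSubring ℝ, B.valuation (p : ℝ) < 1 := by
  set A : Subring ℝ := (Int.castRingHom ℝ).range with hA
  have hpA : (p : ℝ) ∈ A := ⟨(p : ℤ), by simp⟩
  set I : Ideal A := Ideal.span {⟨(p : ℝ), hpA⟩} with hI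
  have hI1 : I ≠ ⊤ := by
    intro h
    rw [hI, Ideal.span_singleton_eq_top, isUnit_iff_exists_inv] at h
    obtain ⟨⟨b, ⟨n, hn⟩⟩, hb⟩ := h
    have h1 : (p : ℝ) * b = 1 := congrArg Subtype.val hb
    rw [← hn] at h1
    have h2 : (p : ℤ) * n = 1 := by
      have h3 : (((p : ℤ) * n : ℤ) : ℝ) = 1 := by push_cast; simpa using h1
      exact_mod_cast h3
    have h4 := Int.isUnit_iff.mp (IsUnit.of_mul_eq_one _ h2)
    have h5 := hp.two_le
    omega
  obtain ⟨B, _, h2⟩ := Ideal.image_subset_nonunits_valuationSubring I hI1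
  refine ⟨B, ?_⟩
  rw [← ValuationSubring.mem_nonunits_iff]
  exact h2 ⟨⟨(p : ℝ), hpA⟩, Ideal.subset_span rfl, rfl⟩

theorem valuation_natCast_le (B : ValuationSubring ℝ) (n : ℕ) : B.valuation (n : ℝ) ≤ 1 :=
  (B.valuation_le_one_iff _).mpr (natCast_mem B n)

theorem valuation_intCast_le (B : ValuationSubring ℝ) (n : ℤ) : B.valuation (n : ℝ) ≤ 1 :=
  (B.valuation_le_one_iff _).mpr (intCast_mem B n)

theorem valuation_other (B : ValuationSubring ℝ) {p q : ℕ} (hp : p.Prime) (hq : q.Prime)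
    (hpq : p ≠ q) (h : B.valuation (p : ℝ) < 1) : B.valuation (q : ℝ) = 1 := by
  refine le_antisymm (valuation_natCast_le B q) ?_
  by_contra hc
  push Not at hc
  have hco : IsCoprime (p : ℤ) (q : ℤ) :=
    Nat.isCoprime_iff_coprime.mpr ((Nat.coprime_primes hp hq).mpr hpq)
  obtain ⟨a, b, hab⟩ := hco
  have h1 : ((a : ℝ) * p + b * q) = 1 := by exact_mod_cast congrArg (Int.cast : ℤ → ℝ) hab
  have h2 : B.valuation ((a : ℝ) * p + b * q) < 1 := by
    refine Valuation.map_add_lt _ ?_ ?_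
    · rw [map_mul]
      exact (mul_le_of_le_one_left zero_le (valuation_intCast_le B a)).trans_lt h
    · rw [map_mul]
      exact (mul_le_of_le_one_left zero_le (valuation_intCast_le B b)).trans_lt hc
  rw [h1, map_one] at h2
  exact lt_irrefl _ h2

/-- the measure with the masses `a` at `0` and `1 - a` at `1` -/
theorem exists_two (a : ℝ) (h0 : 0 < a) (h1 : a < 1) :
    ∃ μ : FinProb, mass μ 0 = a ∧ mass μ 1 = 1 - a ∧ ∀ s, 2 ≤ s → mass μ s = 0 := by
  let m : Measure ℕ := ENNReal.ofReal a • Measure.dirac 0 +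
    ENNReal.ofReal (1 - a) • Measure.dirac 1
  have hm : ∀ s : ℕ, m {s} = (if s = 0 then ENNReal.ofReal a else 0) +
      (if s = 1 then ENNReal.ofReal (1 - a) else 0) := by
    intro s
    simp only [m, Measure.add_apply, Measure.smul_apply, smul_eq_mul]
    rw [Measure.dirac_apply' _ (measurableSet_singleton s),
      Measure.dirac_apply' _ (measurableSet_singleton s)]
    congr 1
    · by_cases h : s = 0
      · simp [h]
      · rw [if_neg h, Set.indicator_of_notMem (by simpa using fun h2 => h h2.symm), mul_zero]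
    · by_cases h : s = 1
      · simp [h]
      · rw [if_neg h, Set.indicator_of_notMem (by simpa using fun h2 => h h2.symm), mul_zero]
  have hp : IsProbabilityMeasure m := by
    refine ⟨?_⟩
    simp only [m, Measure.add_apply, Measure.smul_apply, smul_eq_mul, measure_univ, mul_one]
    rw [← ENNReal.ofReal_add h0.le (by linarith)]
    simp
  have hf : {s : ℕ | m {s} ≠ 0}.Finite := by
    refine Set.Finite.subset (Set.finite_Iio 2) fun s hs => ?_
    rw [Set.mem_ofPred_eq, hm] at hs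
    rw [Set.mem_Iio]
    by_contra h
    push Not at h
    rw [if_neg (by omega), if_neg (by omega)] at hs
    simp at hs
  refine ⟨⟨m, hp, hf⟩, ?_, ?_, ?_⟩
  · show (m {0}).toReal = a
    rw [hm]
    simp [h0.le]
  · show (m {1}).toReal = 1 - a
    rw [hm]
    simp [h1.le]
  · intro s hs
    show (m {s}).toReal = 0
    rw [hm, if_neg (by omega), if_neg (by omega)]
    simp

variable {Γ : Type*} [LinearOrderedCommGroupWithZero Γ] (v : Valuation ℝ Γ)

/-- the index is `1` when the mass at `1` has the strictly larger valuation -/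
theorem idx_one (μ : FinProb) (h2 : ∀ s, 2 ≤ s → mass μ s = 0)
    (h : v (mass μ 0) < v (mass μ 1)) : idx v μ = 1 := by
  refine idx_unique v μ 1 (fun i => ?_) fun i hi => ?_
  · rcases i with _ | _ | i
    · exact h.le
    · exact le_rfl
    · rw [h2 _ (by omega), map_zero]; exact zero_le
  · have : i = 0 := by omega
    rw [this]; exact h

theorem idx_zero (μ : FinProb) (h2 : ∀ s, 2 ≤ s → mass μ s = 0)
    (h : v (mass μ 1) ≤ v (mass μ 0)) : idx v μ = 0 := by
  refine idx_unique v μ 0 (fun i => ?_) fun i hi => absurd hi (by omega)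
  rcases i with _ | _ | i
  · exact le_rfl
  · exact h
  · rw [h2 _ (by omega), map_zero]; exact zero_le

theorem frac_one (p : ℕ) : (1 : ℝ) - p / (p + 1) = 1 / (p + 1) := by
  have : (p : ℝ) + 1 ≠ 0 := by positivity
  field_simp
  ring

/-- For each prime `p` there is the two-point measure with masses `p / (p + 1)`,
`1 / (p + 1)`. -/
theorem exists_test (p : ℕ) (hp : p.Prime) : ∃ μ : FinProb,
    mass μ 0 = p / (p + 1) ∧ mass μ 1 = 1 / (p + 1) ∧ ∀ s, 2 ≤ s → mass μ s = 0 := by
  have hp0 : (0 : ℝ) < p := by exact_mod_cast hp.pos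
  obtain ⟨μ, h1, h2, h3⟩ := exists_two (p / (p + 1)) (by positivity)
    (by rw [div_lt_one (by positivity)]; linarith)
  exact ⟨μ, h1, by rw [h2, frac_one], h3⟩

theorem exists_test' (p : ℕ) (hp : p.Prime) : ∃ μ : FinProb,
    mass μ 0 = 1 / (p + 1) ∧ mass μ 1 = p / (p + 1) ∧ ∀ s, 2 ≤ s → mass μ s = 0 := by
  have hp0 : (0 : ℝ) < p := by exact_mod_cast hp.pos
  obtain ⟨μ, h1, h2, h3⟩ := exists_two (1 / (p + 1)) (by positivity)
    (by rw [div_lt_one (by positivity)]; linarith)
  refine ⟨μ, h1, by rw [h2, ← frac_one]; ring, h3⟩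

theorem val_div (p : ℕ) : v ((p : ℝ) / (p + 1)) = v (p : ℝ) * v (1 / ((p : ℝ) + 1)) := by
  rw [← map_mul]
  congr 1
  ring

theorem val_pos (p : ℕ) : 0 < v (1 / ((p : ℝ) + 1)) := by
  rw [Valuation.pos_iff]
  positivity

theorem idx_test {p : ℕ} (h : v (p : ℝ) < 1) {μ : FinProb}
    (h0 : mass μ 0 = p / (p + 1)) (h1 : mass μ 1 = 1 / (p + 1))
    (h2 : ∀ s, 2 ≤ s → mass μ s = 0) : idx v μ = 1 := by
  refine idx_one v μ h2 ?_
  rw [h0, h1, val_div]
  exact mul_lt_of_lt_one_left (val_pos v p) h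

theorem idx_test_other {p : ℕ} (h : v (p : ℝ) = 1) {μ : FinProb}
    (h0 : mass μ 0 = p / (p + 1)) (h1 : mass μ 1 = 1 / (p + 1))
    (h2 : ∀ s, 2 ≤ s → mass μ s = 0) : idx v μ = 0 := by
  refine idx_zero v μ h2 ?_
  rw [h0, h1, val_div, h, one_mul]

theorem idx_test' {p : ℕ} (h : v (p : ℝ) < 1) {μ : FinProb}
    (h0 : mass μ 0 = 1 / (p + 1)) (h1 : mass μ 1 = p / (p + 1))
    (h2 : ∀ s, 2 ≤ s → mass μ s = 0) : idx v μ = 0 := by
  refine idx_zero v μ h2 ?_
  rw [h0, h1, val_div]
  exact (mul_lt_of_lt_one_left (val_pos v p) h).le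

theorem mass_pt (k s : ℕ) : mass (pt k) s = if s = k then 1 else 0 := by
  show ((Measure.dirac k : Measure ℕ) {s}).toReal = _
  rw [Measure.dirac_apply' _ (measurableSet_singleton s)]
  by_cases h : s = k
  · simp [h]
  · rw [if_neg h, Set.indicator_of_notMem (by simpa using fun h2 => h h2.symm)]
    simp

theorem supp_two {μ : FinProb} (h0 : mass μ 0 ≠ 0) (h1 : mass μ 1 ≠ 0)
    (h2 : ∀ s, 2 ≤ s → mass μ s = 0) : supp μ = {0, 1} := by
  ext s
  show μ.1 {s} ≠ 0 ↔ _
  rw [← mass_ne_zero_iff]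
  rcases s with _ | _ | s
  · simp [h0]
  · simpa using h1
  · simp [h2 (s + 2) (by omega)]

theorem not_tilting {p : ℕ} (hp : p.Prime) (h : v (p : ℝ) < 1) (β : ℝ) :
    ¬ IsTilting β (Psi v) := by
  intro H
  obtain ⟨μ, h0, h1, h2⟩ := exists_test p hp
  have hp0 : (0 : ℝ) < p := by exact_mod_cast hp.pos
  have h3 := H μ 0
  unfold Psi at h3
  rw [idx_test v h h0 h1 h2, mass_pt, if_neg (by omega), h0] at h3
  have h4 : Summable fun t : ℕ => mass μ t * Real.exp (-β * t) := by
    refine summable_of_ne_finset_zero (s := Finset.range 2) fun t ht => ?_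
    rw [h2 t (by have := Finset.mem_range.not.mp ht; omega), zero_mul]
  have h5 : 0 < ∑' t : ℕ, mass μ t * Real.exp (-β * t) := by
    refine h4.tsum_pos (fun t => mul_nonneg ENNReal.toReal_nonneg (Real.exp_pos _).le) 0 ?_
    rw [h0]
    positivity
  have h6 : 0 < (p : ℝ) / (p + 1) * Real.exp (-β * (0 : ℕ)) /
      ∑' t : ℕ, mass μ t * Real.exp (-β * t) := by positivity
  rw [← h3] at h6
  exact lt_irrefl _ h6

theorem not_maxMap {p : ℕ} (hp : p.Prime) (h : v (p : ℝ) < 1) : ¬ IsMaxMap (Psi v) := by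
  intro H
  obtain ⟨μ, h0, h1, h2⟩ := exists_test' p hp
  have hp0 : (0 : ℝ) < p := by exact_mod_cast hp.pos
  have h3 := H μ
  rw [supp_two (by rw [h0]; positivity) (by rw [h1]; positivity) h2] at h3
  have h4 : (Measure.dirac (idx v μ) : Measure ℕ) = Measure.dirac (sSup {0, 1}) := h3
  rw [idx_test' v h h0 h1 h2] at h4
  have h5 := dirac_eq_dirac_iff.mp h4
  have h6 : sSup ({0, 1} : Set ℕ) = 1 := by
    rw [csSup_pair]
    rfl
  rw [h6] at h5
  exact absurd h5 (by norm_num)

theorem not_minMap {p : ℕ} (hp : p.Prime) (h : v (p : ℝ) < 1) : ¬ IsMinMap (Psi v) := by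
  intro H
  obtain ⟨μ, h0, h1, h2⟩ := exists_test p hp
  have hp0 : (0 : ℝ) < p := by exact_mod_cast hp.pos
  have h3 := H μ
  rw [supp_two (by rw [h0]; positivity) (by rw [h1]; positivity) h2] at h3
  have h4 : (Measure.dirac (idx v μ) : Measure ℕ) = Measure.dirac (sInf {0, 1}) := h3
  rw [idx_test v h h0 h1 h2] at h4
  have h5 := dirac_eq_dirac_iff.mp h4
  have h6 : sInf ({0, 1} : Set ℕ) = 0 := Nat.sInf_eq_zero.mpr (Or.inl (by simp))
  rw [h6] at h5
  exact absurd h5 (by norm_num)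

/-- the endomorphisms that are none of the known ones -/
def exotic : Set (FinProb → FinProb) :=
  {Ψ | IsEndomorphism Ψ ∧ IsWeaklySupportPreserving Ψ ∧ (∀ β : ℝ, ¬ IsTilting β Ψ) ∧
    ¬ IsMaxMap Ψ ∧ ¬ IsMinMap Ψ}

theorem exotic_infinite : exotic.Infinite := by
  choose B hB using fun p : Nat.Primes => exists_valuationSubring p.1 p.2
  have : Infinite Nat.Primes := Nat.Primes.infinite
  refine Set.infinite_of_injective_forall_mem (f := fun p : Nat.Primes => Psi (B p).valuation)
    ?_ ?_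
  · intro p q hpq
    by_contra hne
    have hne' : (p : ℕ) ≠ q := fun h => hne (Subtype.ext h)
    obtain ⟨μ, h0, h1, h2⟩ := exists_test p.1 p.2
    have h3 : Psi (B p).valuation μ = Psi (B q).valuation μ := congrFun hpq μ
    have h4 := pt_inj h3
    rw [idx_test _ (hB p) h0 h1 h2, idx_test_other _
      (valuation_other (B q) q.2 p.2 hne'.symm (hB q)) h0 h1 h2] at h4
    exact absurd h4 (by norm_num)
  · intro p
    exact ⟨isEndomorphism _, isWeaklySupportPreserving _, fun β => not_tilting _ p.2 (hB p) β,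
      not_maxMap _ p.2 (hB p), not_minMap _ p.2 (hB p)⟩

end Q290.WSP
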