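import Pool.Agent.Q290.WSP.Defs

/-!
# Endomorphisms of the convolution semigroup from valuations of the field of real numbers
-/

set_option autoImplicit false

open MeasureTheory

namespace Q290.WSP

theorem mass_conv (μ ν : FinProb) (n : ℕ) : mass (conv μ ν) n =
    ∑ p ∈ Finset.HasAntidiagonal.antidiagonal n, mass μ p.1 * mass ν p.2 := by
  unfold mass
  have h : (conv μ ν).1 {n} =
      ∑ p ∈ Finset.HasAntidiagonal.antidiagonal n, μ.1 {p.1} * ν.1 {p.2} :=
    conv_singleton μ.1 ν.1 n
  rw [h, ENNReal.toReal_sum]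
  · exact Finset.sum_congr rfl fun p _ => ENNReal.toReal_mul
  · intro p _
    exact ENNReal.mul_ne_top (measure_ne_top _ _) (measure_ne_top _ _)

theorem mass_ne_zero_iff (μ : FinProb) (s : ℕ) : mass μ s ≠ 0 ↔ μ.1 {s} ≠ 0 := by
  unfold mass
  rw [Ne, ENNReal.toReal_eq_zero_iff]
  simp [measure_ne_top]

theorem exists_mass_ne_zero (μ : FinProb) : ∃ s, mass μ s ≠ 0 := by
  by_contra h
  push Not at h
  have h1 : ∀ s, μ.1 {s} = 0 := fun s => by
    by_contra h2
    exact (mass_ne_zero_iff μ s).mpr h2 (h s)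
  have h2 : μ.1 (⋃ s : ℕ, {s}) = 0 := measure_iUnion_null h1
  rw [Set.iUnion_of_singleton, measure_univ] at h2
  exact one_ne_zero h2

variable {Γ : Type*} [LinearOrderedCommGroupWithZero Γ] (v : Valuation ℝ Γ)

theorem exists_top (μ : FinProb) : ∃ j, ∀ i, v (mass μ i) ≤ v (mass μ j) := by
  obtain ⟨s, hs⟩ := exists_mass_ne_zero μ
  have hne : (μ.2.2.toFinset).Nonempty :=
    ⟨s, by rw [Set.Finite.mem_toFinset]; exact (mass_ne_zero_iff μ s).mp hs⟩
  obtain ⟨j, _, hj⟩ := Finset.exists_max_image μ.2.2.toFinset (fun j => v (mass μ j)) hne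
  refine ⟨j, fun i => ?_⟩
  by_cases hi : μ.1 {i} = 0
  · have : mass μ i = 0 := by unfold mass; rw [hi]; simp
    rw [this, map_zero]
    exact zero_le
  · exact hj i (by rw [Set.Finite.mem_toFinset]; exact hi)

/-- the least index at which the valuation of the mass is maximal -/
noncomputable def idx (μ : FinProb) : ℕ := sInf {j | ∀ i, v (mass μ i) ≤ v (mass μ j)}

theorem idx_spec (μ : FinProb) (i : ℕ) : v (mass μ i) ≤ v (mass μ (idx v μ)) := by
  have h : idx v μ ∈ {j | ∀ i, v (mass μ i) ≤ v (mass μ j)} := Nat.sInf_mem (exists_top v μ)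
  exact h i

theorem idx_lt (μ : FinProb) (i : ℕ) (hi : i < idx v μ) :
    v (mass μ i) < v (mass μ (idx v μ)) := by
  refine lt_of_le_of_ne (idx_spec v μ i) fun h => ?_
  have h1 : i ∉ {j | ∀ i, v (mass μ i) ≤ v (mass μ j)} := Nat.notMem_of_lt_sInf hi
  exact h1 fun k => h ▸ idx_spec v μ k

theorem idx_pos (μ : FinProb) : 0 < v (mass μ (idx v μ)) := by
  obtain ⟨s, hs⟩ := exists_mass_ne_zero μ
  refine lt_of_lt_of_le ?_ (idx_spec v μ s)
  rw [Valuation.pos_iff]
  exact hs

theorem idx_unique (μ : FinProb) (k : ℕ) (h1 : ∀ i, v (mass μ i) ≤ v (mass μ k))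
    (h2 : ∀ i, i < k → v (mass μ i) < v (mass μ k)) : idx v μ = k := by
  refine le_antisymm (Nat.sInf_le h1) ?_
  by_contra h
  push Not at h
  exact absurd (idx_spec v μ k) (not_le.mpr (h2 _ h))

theorem idx_conv (μ ν : FinProb) : idx v (conv μ ν) = idx v μ + idx v ν := by
  set k := idx v μ with hk
  set l := idx v ν with hl
  have hM := idx_pos v μ
  have hN := idx_pos v ν
  rw [← hk] at hM
  rw [← hl] at hN
  have hle : ∀ n, v (mass (conv μ ν) n) ≤ v (mass μ k) * v (mass ν l) := by
    intro n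
    rw [mass_conv]
    refine Valuation.map_sum_le v fun p _ => ?_
    rw [map_mul]
    exact mul_le_mul' (idx_spec v μ _) (idx_spec v ν _)
  have hlt : ∀ i j, i < k ∨ j < l → v (mass μ i * mass ν j) < v (mass μ k) * v (mass ν l) := by
    intro i j hij
    rw [map_mul]
    rcases hij with h | h
    · exact mul_lt_mul_of_lt_of_le_of_nonneg_of_pos (idx_lt v μ _ h) (idx_spec v ν _) zero_le hN
    · rw [mul_comm, mul_comm (v (mass μ k))]
      exact mul_lt_mul_of_lt_of_le_of_nonneg_of_pos (idx_lt v ν _ h) (idx_spec v μ _) zero_le hM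
  have heq : v (mass (conv μ ν) (k + l)) = v (mass μ k) * v (mass ν l) := by
    rw [mass_conv, ← map_mul]
    refine Valuation.map_sum_eq_of_lt v (j := (k, l)) ?_ ?_
    · rw [Finset.HasAntidiagonal.mem_antidiagonal]
    · intro p hp
      rw [Finset.mem_sdiff, Finset.HasAntidiagonal.mem_antidiagonal, Finset.mem_singleton] at hp
      rw [map_mul (v) (mass μ k)]
      refine hlt _ _ ?_
      by_contra hc
      push Not at hc
      refine hp.2 (Prod.ext ?_ ?_) <;> simp only <;> omega
  refine idx_unique v _ _ (fun i => heq ▸ hle i) fun n hn => ?_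
  rw [heq, mass_conv]
  refine Valuation.map_sum_lt v (mul_pos hM hN).ne' fun p hp => hlt _ _ ?_
  rw [Finset.HasAntidiagonal.mem_antidiagonal] at hp
  omega

theorem finite_dirac (k : ℕ) : {s : ℕ | (Measure.dirac k : Measure ℕ) {s} ≠ 0}.Finite := by
  refine Set.Finite.subset (Set.finite_singleton k) fun s hs => ?_
  rw [Set.mem_ofPred_eq, Measure.dirac_apply' _ (measurableSet_singleton s)] at hs
  by_contra h
  apply hs
  rw [Set.indicator_of_notMem]
  intro h1
  exact h (Eq.symm h1)

/-- the point mass at `k` -/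
noncomputable def pt (k : ℕ) : FinProb := ⟨Measure.dirac k, inferInstance, finite_dirac k⟩

theorem pt_inj {k l : ℕ} (h : pt k = pt l) : k = l := by
  have h1 : (Measure.dirac k : Measure ℕ) = Measure.dirac l := congrArg Subtype.val h
  exact dirac_eq_dirac_iff.mp h1

/-- the endomorphism of the valuation `v` -/
noncomputable def Psi (μ : FinProb) : FinProb := pt (idx v μ)

theorem isEndomorphism : IsEndomorphism (Psi v) := by
  intro μ ν
  unfold Psi
  rw [idx_conv]
  refine Subtype.ext ?_
  show Measure.dirac (idx v μ + idx v ν) =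
    (Measure.dirac (idx v μ)).conv (Measure.dirac (idx v ν))
  rw [Measure.dirac_conv_dirac]

theorem isWeaklySupportPreserving : IsWeaklySupportPreserving (Psi v) := by
  intro μ s hs
  show Measure.dirac (idx v μ) s = 0
  rw [Measure.dirac_apply' _ (MeasurableSet.of_discrete), Set.indicator_of_notMem]
  intro h
  have h1 : μ.1 {idx v μ} ≤ μ.1 s := measure_mono (Set.singleton_subset_iff.mpr h)
  rw [hs] at h1
  have h2 : mass μ (idx v μ) = 0 := by
    unfold mass
    rw [nonpos_iff_eq_zero.mp h1]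
    simp
  have h3 := idx_pos v μ
  rw [h2, map_zero] at h3
  exact lt_irrefl _ h3

end Q290.WSP
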